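import Mathlib
import Pool.Agent.L7h28.UM.Final3

/-!
MP_746f10_nt (the uniform prime k-tuplets conjecture), partial result: at least `r` of the `k` forms are
prime and all `k` values are almost prime, for some `n` at most a fixed power of the largest coefficient;
the exponent is absolute (the same for all `r` and `k`), and the number of such `n` is of the order of
magnitude which is conjectured for the `k`-tuple.
-/

set_option autoImplicit false

open Finset Filter

namespace Pool.Agent.Results.MP_746f10_nt.ManyPrimesUniform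

/-- `{a i * x + b i : i < k}` is an admissible set of `k` linear forms, in the sense of the problem. -/
def Admissible {k : ℕ} (a b : Fin k → ℕ) : Prop :=
  (∀ i, 1 ≤ b i ∧ b i < a i) ∧ (∀ i j, i ≠ j → (a i, b i) ≠ (a j, b j)) ∧
    ∀ p : ℕ, p.Prime → ∃ m : ℤ, ∀ i, ¬ ((p : ℤ) ∣ (a i : ℤ) * m + (b i : ℤ))

theorem sys_of {k X : ℕ} {a b : Fin k → ℕ} (h : Admissible a b) (hX : ∀ i, a i ≤ X) :
    Pool.Agent.L7h28.UM.Sys X a b := by
  obtain ⟨h1, h2, h3⟩ := h
  have hcop : ∀ i, (a i).Coprime (b i) := by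
    intro i
    apply Nat.coprime_of_dvd
    intro p hp ha hb
    obtain ⟨m, hm⟩ := h3 p hp
    apply hm i
    exact dvd_add (Dvd.dvd.mul_right (Int.natCast_dvd_natCast.2 ha) m) (Int.natCast_dvd_natCast.2 hb)
  refine ⟨fun j => ⟨by have := h1 j; omega, hX j, by have := h1 j; have := hX j; omega⟩, ?_, ?_⟩
  · intro i j hij
    exact Pool.Agent.L7h28.UM.det_ne (hcop i) (hcop j) (by have := h1 i; omega) (by have := h1 j; omega) (h2 i j hij)
  · intro p hp
    obtain ⟨m, hm⟩ := h3 p hp
    have hp0 : (p : ℤ) ≠ 0 := by exact_mod_cast hp.ne_zero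
    refine ⟨(m % p).toNat, fun j hd => hm j ?_⟩
    have h4 : ((m % p).toNat : ℤ) = m % p := Int.toNat_of_nonneg (Int.emod_nonneg _ hp0)
    have h5 : (p : ℤ) ∣ (a j : ℤ) * (m % p) + b j := by
      rw [← h4]
      exact_mod_cast hd
    have h6 : (a j : ℤ) * m + b j = ((a j : ℤ) * (m % p) + b j) + (p : ℤ) * (a j * (m / p)) := by
      have := Int.emod_add_mul_ediv m p
      calc (a j : ℤ) * m + b j = (a j : ℤ) * (m % p + p * (m / p)) + b j := by rw [this]
        _ = _ := by ring
    rw [h6]
    exact dvd_add h5 (dvd_mul_right _ _)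

/-- There are an absolute exponent `A` and integers `q X`, larger than every fixed power of `log X`, such
that for every `r` there is `K` with the following property. For every `k` there are `Om` and `δ > 0` such
that for all large `X`: if `{a i * x + b i}` is an admissible set of `k` forms with `a i ≤ X`, and `J` is a set
of indices, at least `K` of whose leading coefficients are not divisible by `q X`, then for some
`N` between `X` and `X ^ A` at least `δ * N / (log N) ^ k` of the integers `N / 6 ≤ n ≤ N` are such that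
at least `r` of the forms with index in `J` take a prime value at `n` and all `k` values at `n` have at most
`Om` prime factors, counted with multiplicity. -/
theorem result : ∃ (A : ℕ) (q : ℕ → ℕ), (∀ B : ℕ, ∀ᶠ X : ℕ in atTop, (Real.log X) ^ B ≤ (q X : ℝ)) ∧
    ∀ r : ℕ, ∃ K : ℕ, ∀ k : ℕ, ∃ (Om : ℕ) (δ : ℝ), 0 < δ ∧ ∀ᶠ X : ℕ in atTop,
      ∀ a b : Fin k → ℕ, Admissible a b → (∀ i, a i ≤ X) →
      ∀ J : Finset (Fin k), K ≤ (J.filter (fun j => ¬ q X ∣ a j)).card →
      ∃ N : ℕ, X ≤ N ∧ N ≤ X ^ A ∧ δ * (N / (Real.log N) ^ k) ≤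
        (((Icc 1 N).filter (fun n : ℕ => N ≤ 6 * n ∧ r ≤ (J.filter (fun j => (a j * n + b j).Prime)).card ∧
          ∀ i, ArithmeticFunction.cardFactors (a i * n + b i) ≤ Om)).card : ℝ) := by
  obtain ⟨A, q, _, hq, hA, _⟩ := Pool.Agent.L7h28.UM.uniform
  refine ⟨A, q, hq, fun r => ?_⟩
  obtain ⟨K, hK⟩ := hA r
  refine ⟨K, fun k => ?_⟩
  obtain ⟨Om, δ, hδ, hev⟩ := hK k
  refine ⟨Om, δ, hδ, ?_⟩
  filter_upwards [hev] with X hX
  intro a b hab haX J hJ
  exact hX a b (sys_of hab haX) J hJ

end Pool.Agent.Results.MP_746f10_nt.ManyPrimesUniform
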