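import Pool.Agent.L7h16.PT.Main
import Pool.Agent.L7h16.SV.FixD

/-!
# Prime values of systems of linear forms with random and metric coefficients, at polylogarithmic arguments

Let `k ≥ 1`. A system of linear forms `a_1 n + b_1, …, a_k n + b_k`, `1 ≤ b_i < a_i`, is given by the vector
`v = (a_1, …, a_k, b_1, …, b_k)`. The starting file `AlmostAllCoefficients` shows that for almost all vectors in a box of size `X`
the Hardy-Littlewood formula holds, up to a factor `1 ± ε`, for the number of the `n ≤ M` for which all the values of the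
forms are prime, where `M` is a (large) power of `log X`. In particular an admissible system has `k` simultaneous prime values at
an `n ≤ (log X) ^ E`, a bound of the strength conjectured in Linnik's problem for tuples.

Here we prove it for SEQUENCES of coefficient vectors. The exponent `E` is linear in the parameters of the statements.

* For random coefficient vectors `Y_n` (of ANY dependence) in boxes of sizes `x_n ≥ exp (n ^ δ)`, with probabilities of
  the values at most `D x_n ^ (-2k)`: almost surely, for all large `n`, ALL the admissible systems of coefficients at a distance at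
  most `(log x_n) ^ A` from `Y_n` satisfy the formula with `M = (log x_n) ^ E`, `E ≥ C (1/δ + A + 1)`.
* For almost all `β` in `ℝ ^ (2k)` the same holds for all the admissible systems with `|a_i - β_i x_n| ≤ (log x_n) ^ A` and
  `|b_i - β_{k+i} x_n| ≤ (log x_n) ^ A`, for all large `n`.
* For `x_n ≥ n ^ δ` (for instance `x_n = n`) both hold for all but `N / (log N) ^ U` of the `n < N`, with `E ≥ C (A + U + 1)`.
-/

set_option autoImplicit false

namespace Pool.Agent.Results.MP_746f10_nt.RandomAndMetricCoefficients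

open Finset Filter MeasureTheory
open Pool.Agent.Results.MP_746f10_nt.AlmostAllCoefficients (Holds Admissible)
open Pool.Agent.L7h16.SV (Around SparseW)
open Pool.Agent.L7h16.PT (Bad vec len main exists_prime)

variable {k : ℕ}

/-- ALL the admissible systems `a_i n + b_i`, `1 ≤ b_i < a_i`, with `|a_i - y_i|, |b_i - y_{k+i}| ≤ (log X) ^ A`, satisfy the
formula of Hardy and Littlewood for `n ≤ M = ⌊log₂ X⌋ ^ E`, up to a factor `1 ± ε` -/
def Typical (ε : ℝ) (E A X : ℕ) (y : Fin (k + k) → ℝ) : Prop :=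
  ∀ a b : Fin k → ℕ, (∀ i, 1 ≤ b i ∧ b i < a i) → Admissible a b →
    (∀ i, |(a i : ℝ) - y (Fin.castAdd k i)| ≤ Real.log X ^ A) → (∀ i, |(b i : ℝ) - y (Fin.natAdd k i)| ≤ Real.log X ^ A) →
    Holds ε a b (Nat.log 2 X ^ E)

lemma typical_of {ε : ℝ} {E A X : ℕ} {y : Fin (k + k) → ℝ} (h : Around X A y (fun v => ¬ Bad ε (len E X) v)) :
    Typical ε E A X y := by
  intro a b hab hadm ha hb
  by_contra hc
  refine h (vec a b) (fun j => ?_) ⟨a, b, rfl, hab, hadm, hc⟩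
  refine Fin.addCases (fun i => ?_) (fun i => ?_) j
  · rw [Pool.Agent.L7h16.PT.vec_left]
    exact_mod_cast ha i
  · rw [Pool.Agent.L7h16.PT.vec_right]
    exact_mod_cast hb i

/-- **Systems of linear forms with random and metric coefficients.** The last part: the formula implies that
there is an `n ≤ M` with `k` prime values. -/
theorem result (k : ℕ) (hk : 1 ≤ k) (ε : ℝ) (hε : 0 < ε) : ∃ C : ℕ,
    (∀ (Ω : Type) [MeasurableSpace Ω] (μ : Measure Ω) [IsFiniteMeasure μ] (x : ℕ → ℕ) (Y : ℕ → Ω → Fin (k + k) → ℤ) (B : ℕ)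
      (D δ : ℝ), 0 < δ → (∀ n v, μ {ω | Y n ω = v} ≤ ENNReal.ofReal (D / (x n : ℝ) ^ (2 * k))) →
      (∀ n, ∀ᵐ ω ∂μ, ∀ j, |Y n ω j| ≤ ((B * x n : ℕ) : ℤ)) → (∀ᶠ n : ℕ in atTop, Real.exp ((n : ℝ) ^ δ) ≤ x n) →
      ∀ E A : ℕ, C * (1 / δ + A + 1) ≤ E → ∀ᵐ ω ∂μ, ∀ᶠ n in atTop, Typical ε E A (x n) (fun j => (Y n ω j : ℝ))) ∧
    (∀ (x : ℕ → ℕ) (δ : ℝ), 0 < δ → (∀ᶠ n : ℕ in atTop, Real.exp ((n : ℝ) ^ δ) ≤ x n) →
      ∀ E A : ℕ, C * (1 / δ + A + 1) ≤ E →
      ∀ᵐ β : Fin (k + k) → ℝ, ∀ᶠ n in atTop, Typical ε E A (x n) (fun j => β j * x n)) ∧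
    (∀ (Ω : Type) [MeasurableSpace Ω] (μ : Measure Ω) [IsFiniteMeasure μ] (x : ℕ → ℕ) (Y : ℕ → Ω → Fin (k + k) → ℤ) (B : ℕ)
      (D δ : ℝ), 0 < δ → (∀ n, Measurable (Y n)) →
      (∀ n v, μ {ω | Y n ω = v} ≤ ENNReal.ofReal (D / (x n : ℝ) ^ (2 * k))) →
      (∀ n, ∀ᵐ ω ∂μ, ∀ j, |Y n ω j| ≤ ((B * x n : ℕ) : ℤ)) → (∀ᶠ n : ℕ in atTop, (n : ℝ) ^ δ ≤ x n) →
      ∀ E A U : ℕ, C * (A + U + 1) ≤ E → ∀ᵐ ω ∂μ, ∀ᶠ N : ℕ in atTop,
        ({n : ℕ | n < N ∧ ¬ Typical ε E A (x n) (fun j => (Y n ω j : ℝ))}.ncard : ℝ) ≤ N / Real.log N ^ U) ∧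
    (∀ (x : ℕ → ℕ) (δ : ℝ), 0 < δ → (∀ᶠ n : ℕ in atTop, (n : ℝ) ^ δ ≤ x n) →
      ∀ E A U : ℕ, C * (A + U + 1) ≤ E → ∀ᵐ β : Fin (k + k) → ℝ, ∀ᶠ N : ℕ in atTop,
        ({n : ℕ | n < N ∧ ¬ Typical ε E A (x n) (fun j => β j * x n)}.ncard : ℝ) ≤ N / Real.log N ^ U) ∧
    (ε < 1 → ∀ (a b : Fin k → ℕ) (M : ℕ), 1 ≤ M → (∀ i, 1 ≤ b i ∧ b i < a i) → Admissible a b → Holds ε a b M →
      ∃ n : ℕ, 1 ≤ n ∧ n ≤ M ∧ ∀ i, (a i * n + b i).Prime) := by
  obtain ⟨C, hC1, hC⟩ := main hk ε hε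
  have hC0 : (0 : ℝ) ≤ C := Nat.cast_nonneg _
  have hk1 : (1 : ℝ) ≤ k := by exact_mod_cast hk
  have e1 : ∑ _j : Fin (k + k), 1 = 2 * k := by simp [two_mul]
  -- the savings
  have hS1 : ∀ (E A V : ℕ) (δ : ℝ), 0 < δ → (((C * (4 * k + 5) : ℕ) : ℝ)) * (1 / δ + A + 1) ≤ E → (V : ℝ) < 2 / δ + 1 →
      SparseW (fun _ : Fin (k + k) => 1) (V + ((A + 1) * (k + k) + (k + k) + 1)) (fun X v => Bad ε (len E X) v) := by
    intro E A V δ hδ hE hV
    refine (hC E _ (le_trans ?_ hE)).1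
    have hδ1 : 0 < 1 / δ := by positivity
    have hA : (0 : ℝ) ≤ A := Nat.cast_nonneg _
    have h1 : (2 : ℝ) / δ = 2 * (1 / δ) := by ring
    rw [h1] at hV
    push_cast
    rw [mul_assoc]
    refine mul_le_mul_of_nonneg_left ?_ hC0
    nlinarith [mul_nonneg hA (by linarith : (0 : ℝ) ≤ k), mul_nonneg hδ1.le (by linarith : (0 : ℝ) ≤ k)]
  have hS2 : ∀ (E A U : ℕ), (((C * (4 * k + 5) : ℕ) : ℝ)) * (A + U + 1) ≤ E →
      SparseW (fun _ : Fin (k + k) => 1) (U + 1 + 2 + ((A + 1) * (k + k) + (k + k) + 1)) (fun X v => Bad ε (len E X) v) := by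
    intro E A U hE
    refine (hC E _ (le_trans ?_ hE)).1
    have hA : (0 : ℝ) ≤ A := Nat.cast_nonneg _
    have hU : (0 : ℝ) ≤ U := Nat.cast_nonneg _
    push_cast
    rw [mul_assoc]
    refine mul_le_mul_of_nonneg_left ?_ hC0
    nlinarith [mul_nonneg hA (by linarith : (0 : ℝ) ≤ k), mul_nonneg hU (by linarith : (0 : ℝ) ≤ k)]
  -- smaller savings
  have hmono : ∀ {W W' : ℕ} {Bd : ℕ → (Fin (k + k) → ℤ) → Prop}, W' ≤ W → SparseW (fun _ : Fin (k + k) => 1) W Bd →
      SparseW (fun _ : Fin (k + k) => 1) W' Bd := by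
    intro W W' Bd h h1 B
    obtain ⟨X₀, hX₀⟩ := h1 B
    refine ⟨max X₀ 3, fun X hX => (hX₀ X ((le_max_left _ _).trans hX)).trans ?_⟩
    have h3 : 3 ≤ X := (le_max_right _ _).trans hX
    have h4 : 1 ≤ Real.log X := by
      rw [Real.le_log_iff_exp_le (by positivity)]
      have := Real.exp_one_lt_d9
      have h5 : (3 : ℝ) ≤ X := by exact_mod_cast h3
      linarith
    gcongr
  have hpow : ∀ (x : ℕ → ℕ) (β : Fin (k + k) → ℝ) (n : ℕ), (fun j => β j * (x n : ℝ) ^ 1) = fun j => β j * (x n : ℝ) := by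
    intro x β n
    simp only [pow_one]
  refine ⟨C * (4 * k + 5), ?_, ?_, ?_, ?_, fun h1 a b M hM hab hadm h => exists_prime hk h1 hM hab hadm h⟩
  · intro Ω _ μ _ x Y B D δ hδ hYk hYb hx E A hE
    have h1 := Pool.Agent.L7h16.SV.random_eventuallyW (d := fun _ : Fin (k + k) => 1) (Bad := fun X v => Bad ε (len E X) v)
      (fun _ => le_rfl) Ω μ x Y B D δ hδ (by rw [e1]; exact hYk) (by simpa only [pow_one] using hYb) hx A ⌈2 / δ⌉₊
      (Nat.le_ceil _) (hmono (by gcongr; omega) (hS1 E A _ δ hδ hE (Nat.ceil_lt_add_one (by positivity))))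
    filter_upwards [h1] with ω hω
    filter_upwards [hω] with n hn
    exact typical_of hn
  · intro x δ hδ hx E A hE
    have h1 := Pool.Agent.L7h16.SV.metric_eventuallyW (d := fun _ : Fin (k + k) => 1) (Bad := fun X v => Bad ε (len E X) v)
      (fun _ => le_rfl) x δ hδ hx A ⌈2 / δ⌉₊ (Nat.le_ceil _) (hS1 E A _ δ hδ hE (Nat.ceil_lt_add_one (by positivity)))
    filter_upwards [h1] with β hβ
    filter_upwards [hβ] with n hn
    rw [hpow x β n] at hn
    exact typical_of hn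
  · intro Ω _ μ _ x Y B D δ hδ hYm hYk hYb hx E A U hE
    have h1 := Pool.Agent.L7h16.SV.random_densityW (d := fun _ : Fin (k + k) => 1) (Bad := fun X v => Bad ε (len E X) v)
      (fun _ => le_rfl) Ω μ x Y B D δ hδ hYm (by rw [e1]; exact hYk) (by simpa only [pow_one] using hYb) hx A U
      (hmono (by nlinarith) (hS2 E A U (by exact_mod_cast hE)))
    filter_upwards [h1] with ω hω
    filter_upwards [hω] with N hN
    refine le_trans ?_ hN
    norm_cast
    refine Set.ncard_le_ncard ?_ ((Set.finite_lt_nat N).subset fun n hn => hn.1)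
    exact fun n ⟨h2, h3⟩ => ⟨h2, fun h4 => h3 (typical_of h4)⟩
  · intro x δ hδ hx E A U hE
    have h1 := Pool.Agent.L7h16.SV.metric_densityW (d := fun _ : Fin (k + k) => 1) (Bad := fun X v => Bad ε (len E X) v)
      (fun _ => le_rfl) x δ hδ hx A U (hS2 E A U (by exact_mod_cast hE))
    filter_upwards [h1] with β hβ
    filter_upwards [hβ] with N hN
    refine le_trans (Nat.cast_le.2 ?_) hN
    refine Set.ncard_le_ncard ?_ ((Set.finite_lt_nat N).subset fun n hn => hn.1)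
    intro n ⟨h2, h3⟩
    refine ⟨h2, fun h4 => h3 (typical_of ?_)⟩
    rw [hpow x β n] at h4
    exact h4

end Pool.Agent.Results.MP_746f10_nt.RandomAndMetricCoefficients
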