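import Pool.Agent.L7h16.PT.Main
import Pool.Agent.L7h16.SV.Conv

/-!
# Prime values of the systems of linear forms given by the rational approximations of almost every vector

Let `k ≥ 0`. A rational vector `(p_1 / q, …, p_{2k+1} / q)` gives the vector `(a_0, …, a_k, b_0, …, b_k) = (q, p_1, …, p_{2k+1})`
of the coefficients of `k + 1` linear forms `a_i n + b_i`. We prove that for almost every `α` in `ℝ ^ (2k+1)` and all `c`, ALL BUT
FINITELY MANY of the rational approximations of `α` with `|q α_j - p_j| ≤ c q ^ (-1/(2k+1))`, the exponent of Dirichlet, for which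
the system is admissible, satisfy the formula of Hardy and Littlewood, up to a factor `1 ± ε`, for the number of the
`n ≤ (log q) ^ E` at which all the forms are prime. So all the forms of the system have prime values at some such `n`. For `k = 0`
this is about the least primes in the progressions `p_N mod q_N` of the convergents `p_N / q_N` of almost every number in `(0, 1)`.

The approximations form a very thin set: there are at most about `log Q` of them with `q ≤ Q`, among about `Q ^ (2k + 2)` vectors.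
-/

set_option autoImplicit false

namespace Pool.Agent.Results.MP_746f10_nt.RationalApproximations

open Finset Filter MeasureTheory
open Pool.Agent.Results.MP_746f10_nt.AlmostAllCoefficients (Holds Admissible)
open Pool.Agent.L7h16.PT (Bad vec len main exists_prime)

/-- `|q α_j - p_j| ≤ c q ^ (-1/m)` for all `j < m` -/
def Approximates {m : ℕ} (c : ℝ) (α : Fin m → ℝ) (p : Fin m → ℤ) (q : ℕ) : Prop :=
  1 ≤ q ∧ ∀ j, |(q : ℝ) * α j - (p j : ℝ)| ≤ c * (q : ℝ) ^ (-(1 / m : ℝ))

/-- the vector `(q, p_1, …, p_{2k+1})` is the vector `(a_0, …, a_k, b_0, …, b_k)` of coefficients -/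
def Coefficients {k : ℕ} (a b : Fin (k + 1) → ℕ) (p : Fin (k + 1 + k) → ℤ) (q : ℕ) : Prop :=
  (Fin.append (fun i => (a i : ℤ)) (fun i => (b i : ℤ)) : Fin (k + 1 + (k + 1)) → ℤ) =
    (Fin.cons (q : ℤ) p : Fin (k + 1 + k + 1) → ℤ)

/-- **Systems of linear forms from the rational approximations of almost every vector.** The second part: the formula implies
that there is an `n ≤ M` with `k + 1` prime values. -/
theorem result (k : ℕ) (ε : ℝ) (hε : 0 < ε) : ∃ C : ℕ,
    (∀ E : ℕ, C ≤ E → ∀ᵐ α : Fin (k + 1 + k) → ℝ, ∀ c : ℝ,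
      {t : (Fin (k + 1 + k) → ℤ) × ℕ | Approximates c α t.1 t.2 ∧ ∃ a b : Fin (k + 1) → ℕ, Coefficients a b t.1 t.2 ∧
        (∀ i, 1 ≤ b i ∧ b i < a i) ∧ Admissible a b ∧ ¬ Holds ε a b (Nat.log 2 t.2 ^ E)}.Finite) ∧
    (ε < 1 → ∀ (a b : Fin (k + 1) → ℕ) (M : ℕ), 1 ≤ M → (∀ i, 1 ≤ b i ∧ b i < a i) → Admissible a b → Holds ε a b M →
      ∃ n : ℕ, 1 ≤ n ∧ n ≤ M ∧ ∀ i, (a i * n + b i).Prime) := by
  obtain ⟨C, hC1, hC⟩ := main (k := k + 1) (by omega) ε hε
  refine ⟨C * 3, fun E hE => ?_, fun h1 a b M hM hab hadm h => exists_prime (by omega) h1 hM hab hadm h⟩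
  have h1 := (hC E 2 (by
    have : ((C * 3 : ℕ) : ℝ) ≤ E := by exact_mod_cast hE
    push_cast at this ⊢
    linarith)).2
  have h2 := Pool.Agent.L7h16.SV.ae_vectors (n := k + 1 + k) (e := 1) (by omega) le_rfl (fun X v => Bad (k := k + 1) ε (len E X) v)
    (fun B₁ => by
      obtain ⟨X₀, hX₀⟩ := h1 B₁
      refine ⟨X₀, fun X hX => ?_⟩
      have h3 := hX₀ X hX
      have e1 : 1 * (k + 1 + k + 1) = 2 * (k + 1) := by ring
      rw [e1]
      exact h3)
  filter_upwards [h2] with α hα c
  refine (hα c).subset ?_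
  rintro ⟨p, q⟩ ⟨⟨h3, h4⟩, a, b, h5, h6, h7, h8⟩
  refine ⟨⟨q, h3, by simp, by simp, a, b, h5.symm, h6, h7, h8⟩, h3, fun j => ?_⟩
  have h9 := h4 j
  exact_mod_cast h9

end Pool.Agent.Results.MP_746f10_nt.RationalApproximations
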